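import Pool.Agent.Work.MP_a392d0_lc_h31.FS2

/-!
# Block FS: a filling of a long enough piece gives a long run
-/

namespace Pool.Agent.Work.MP_a392d0_lc.FS

variable {n : ℕ} {cls : Cl} {NB : ℕ} {C : ℕ → Finset (FI n)}

/-- The class of role 1 in half-period `h`. -/
def kl (h : ℕ) : Bool := decide (h % 2 = 1)

theorem kl_succ (h : ℕ) : kl (h + 1) = !kl h := by
  have := (parity_flip h (kl (h + 1))).1 rfl
  unfold kl at this ⊢
  rw [this]
  simp

theorem div_mod_block {cls : Cl} (h b : ℕ) (hb : b < PP cls) :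
    (h * PP cls + b) / PP cls = h ∧ (h * PP cls + b) % PP cls = b := by
  have hP : 0 < PP cls := by unfold PP; omega
  constructor
  · rw [Nat.mul_comm, Nat.mul_add_div hP, Nat.div_eq_of_lt hb, Nat.add_zero]
  · rw [Nat.mul_comm, Nat.mul_add_mod, Nat.mod_eq_of_lt hb]

theorem clo_role1 {cls : Cl} {h j : ℕ} (hj : j ≤ cls.length) :
    clo cls (h * PP cls + 4 * j) = some (kl h) := by
  rw [clo_iff]
  obtain ⟨e1, e2⟩ := div_mod_block (cls := cls) h (4 * j) (by unfold PP; omega)
  left
  rw [e1, e2]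
  exact ⟨rfl, Or.inl ⟨j, hj, rfl⟩⟩

theorem clo_role2 {cls : Cl} {h j : ℕ} (hj : j ≤ cls.length) :
    clo cls (h * PP cls + (4 * j + 1)) = some (kl (h + 1)) := by
  rw [clo_iff]
  obtain ⟨e1, e2⟩ := div_mod_block (cls := cls) h (4 * j + 1) (by unfold PP; omega)
  right
  rw [e1, e2, kl_succ, Bool.not_not]
  exact ⟨rfl, j, hj, rfl⟩

/-- Cell `p` holds a small item at the beginning of half-period `h`. -/
def Small (cls : Cl) (C : ℕ → Finset (FI n)) (h p : ℕ) : Prop :=
  ∃ k : Fin n, FI.trk (kl h) false k ∈ C (h * PP cls * (2 * n) + p)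

variable (hn : 1 ≤ n)
  (cap : ∀ B < NB, ∀ p < 2 * n,
    ∑ i ∈ C (B * (2 * n) + p), fs i ≤ kap n cls (B * (2 * n) + p))
  (win : ∀ (i : FI n) (x : ℕ), x + fw i ≤ NB * (2 * n) → ∃ y, x ≤ y ∧ y < x + fw i ∧ i ∈ C y)
  (hM : 1 ≤ cls.length)

include hn cap win hM in
theorem chain1 {h : ℕ} (h1 : 1 ≤ h) (h2 : (h + 1) * PP cls + 7 ≤ NB)
    {e : Bool × Fin n ≃ Fin (2 * n)} (he : Cell C (kl h) (h * PP cls) e) :
    ∀ j ≤ cls.length, Cell C (kl h) (h * PP cls + 4 * j) e := by
  have hP : PP cls = 4 * cls.length + 5 := rfl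
  have h3 : PP cls ≤ h * PP cls := Nat.le_mul_of_pos_left _ h1
  rw [Nat.succ_mul] at h2
  intro j
  induction j with
  | zero => intro _; exact he
  | succ j ih =>
    intro hj
    have h4 := cell_next hn cap win hM (B := h * PP cls + 4 * j) (c := kl h) (by omega) (by omega)
      (clo_role1 (by omega)) (by
        rw [(div_mod_block h (4 * j) (by omega)).2]
        omega)
      (by
        have := clo_role1 (cls := cls) (h := h) (j := j + 1) hj
        rw [show h * PP cls + 4 * (j + 1) = h * PP cls + 4 * j + 4 by ring] at this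
        exact this) (ih (by omega))
    rw [show h * PP cls + 4 * (j + 1) = h * PP cls + 4 * j + 4 by ring]
    exact h4

include hn cap win hM in
theorem chain2 {h : ℕ} (h1 : 1 ≤ h) (h2 : (h + 1) * PP cls + 7 ≤ NB)
    {e : Bool × Fin n ≃ Fin (2 * n)} (he : Cell C (kl (h + 1)) ((h + 1) * PP cls) e) :
    ∀ j ≤ cls.length, Cell C (kl (h + 1)) (h * PP cls + (4 * j + 1)) e := by
  have hP : PP cls = 4 * cls.length + 5 := rfl
  have h3 : PP cls ≤ h * PP cls := Nat.le_mul_of_pos_left _ h1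
  have h2' := h2
  rw [Nat.succ_mul] at h2'
  obtain ⟨e', he'⟩ := cell_all hn cap win hM (B := h * PP cls + (4 * 0 + 1)) (by omega) (by omega)
    (clo_role2 (h := h) (Nat.zero_le _))
  have key : ∀ j ≤ cls.length, Cell C (kl (h + 1)) (h * PP cls + (4 * j + 1)) e' := by
    intro j
    induction j with
    | zero => intro _; exact he'
    | succ j ih =>
      intro hj
      have h4 := cell_next hn cap win hM (B := h * PP cls + (4 * j + 1)) (c := kl (h + 1))
        (by omega) (by omega) (clo_role2 (by omega)) (by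
          rw [(div_mod_block h (4 * j + 1) (by omega)).2]
          omega)
        (by
          have := clo_role2 (cls := cls) (h := h) (j := j + 1) hj
          rw [show h * PP cls + (4 * (j + 1) + 1) = h * PP cls + (4 * j + 1) + 4 by ring] at this
          exact this) (ih (by omega))
      rw [show h * PP cls + (4 * (j + 1) + 1) = h * PP cls + (4 * j + 1) + 4 by ring]
      exact h4
  have hlast : h * PP cls + (4 * cls.length + 1) + 4 = (h + 1) * PP cls := by
    have h6 : (h + 1) * PP cls = h * PP cls + PP cls := by ring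
    omega
  have h5 := cell_next hn cap win hM (B := h * PP cls + (4 * cls.length + 1)) (c := kl (h + 1))
    (by omega) (by omega) (clo_role2 le_rfl) (by
      rw [(div_mod_block h (4 * cls.length + 1) (by omega)).2]
      omega)
    (by
      rw [hlast]
      exact clo_role1 (cls := cls) (h := h + 1) (j := 0) (Nat.zero_le _)) (key _ le_rfl)
  rw [hlast] at h5
  rw [Cell.unique he h5]
  exact key

theorem small_iff {h : ℕ} {e : Bool × Fin n ≃ Fin (2 * n)} (he : Cell C (kl h) (h * PP cls) e)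
    {p : ℕ} (hp : p < 2 * n) : Small cls C h p ↔ ∃ k, (e (false, k) : ℕ) = p := by
  constructor
  · rintro ⟨k, hk⟩
    exact ⟨k, by rw [(he false k ⟨p, hp⟩).1 hk]⟩
  · rintro ⟨k, hk⟩
    exact ⟨k, (he false k ⟨p, hp⟩).2 (Fin.ext hk)⟩

include hn cap win hM in
theorem cell_start {h : ℕ} (h1 : 1 ≤ h) (h2 : h * PP cls + 7 ≤ NB) :
    ∃ e, Cell C (kl h) (h * PP cls) e := by
  have hP : PP cls = 4 * cls.length + 5 := rfl
  have h3 : PP cls ≤ h * PP cls := Nat.le_mul_of_pos_left _ h1
  have h4 := clo_role1 (cls := cls) (h := h) (j := 0) (Nat.zero_le _)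
  rw [Nat.mul_zero, Nat.add_zero] at h4
  exact cell_all hn cap win hM (by omega) h2 h4

include cap in
/-- A cell with the probe: the literal of the cell is in the clause and the class item is small. -/
theorem probe_cell {h b p : ℕ} {r c : Bool} (hb : b < 4 * cls.length)
    (hr : role cls.length b = some r) (hc : clo cls (h * PP cls + b) = some c)
    (hB : h * PP cls + b < NB) (hp : p < 2 * n)
    (hq : FI.q ∈ C ((h * PP cls + b) * (2 * n) + p)) {e : Bool × Fin n ≃ Fin (2 * n)}
    (he : Cell C c (h * PP cls + b) e) :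
    (r, p / 2, decide (p % 2 = 1)) ∈ cls.getD (b / 4) [] ∧ ∃ k, (e (false, k) : ℕ) = p := by
  obtain ⟨e1, e2⟩ := div_mod_block (cls := cls) h b (by unfold PP; omega)
  have h3 := (he (e.symm ⟨p, hp⟩).1 (e.symm ⟨p, hp⟩).2 ⟨p, hp⟩).2 (by
    rw [Prod.mk.eta, Equiv.apply_symm_apply])
  have h4 := fs_add_le (cap _ hB p hp) hq h3 (by intro h5; injection h5)
  rw [kap_cell n cls _ p hp, e1, e2, hr] at h4
  rw [clo_eq_iff] at hc
  obtain ⟨r', hr', hc⟩ := hc
  rw [e2, hr] at hr'
  injection hr' with hr'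
  subst hr'
  rw [e1] at hc
  simp only [hc] at h4
  rw [fs_trk] at h4
  have h5 : fs (FI.q : FI n) = 2 := rfl
  rw [h5, if_neg (by omega : ¬ (b = 4 * cls.length + 1 ∧ p = 0))] at h4
  by_cases hlit : b < 4 * cls.length ∧ (r, p / 2, decide (p % 2 = 1)) ∈ cls.getD (b / 4) []
  · refine ⟨hlit.2, (e.symm ⟨p, hp⟩).2, ?_⟩
    rw [if_pos hlit] at h4
    have h6 : (e.symm ⟨p, hp⟩).1 = false := by
      by_contra hcon
      rw [Bool.not_eq_false] at hcon
      rw [hcon] at h4
      simp only [cond_true] at h4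
      omega
    have h7 : (false, (e.symm ⟨p, hp⟩).2) = e.symm ⟨p, hp⟩ := by
      rw [← h6]
    rw [h7, Equiv.apply_symm_apply]
  · exfalso
    rw [if_neg hlit] at h4
    omega

include hn cap win hM in
theorem probe {h j : ℕ} (h1 : 1 ≤ h) (h2 : (h + 1) * PP cls + 7 ≤ NB) (hj : j < cls.length) :
    ∃ r : Bool, ∃ p < 2 * n, (r, p / 2, decide (p % 2 = 1)) ∈ cls.getD j [] ∧
      Small cls C (bif r then h + 1 else h) p := by
  have hP : PP cls = 4 * cls.length + 5 := rfl
  have h3 : PP cls ≤ h * PP cls := Nat.le_mul_of_pos_left _ h1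
  have h2' := h2
  rw [Nat.succ_mul] at h2'
  obtain ⟨y, hy1, hy2, hy3⟩ := win FI.q ((h * PP cls + 4 * j - 2) * (2 * n)) (by
    change (h * PP cls + 4 * j - 2) * (2 * n) + 6 * (2 * n) ≤ _
    rw [← Nat.add_mul]
    exact Nat.mul_le_mul_right _ (by omega))
  change y < (h * PP cls + 4 * j - 2) * (2 * n) + 6 * (2 * n) at hy2
  rw [← Nat.add_mul] at hy2
  obtain ⟨e1, e2⟩ := split_lt (y := y) hn
  have hG : 0 < 2 * n := by omega
  have b1 : h * PP cls + 4 * j - 2 ≤ y / (2 * n) := (Nat.le_div_iff_mul_le hG).2 hy1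
  have b2 : y / (2 * n) < h * PP cls + 4 * j - 2 + 6 := (Nat.div_lt_iff_lt_mul hG).2 hy2
  rw [← e1] at hy3
  set B' := y / (2 * n) with hB'
  set p := y % (2 * n) with hp
  have hsome : ∃ c, clo cls B' = some c := by
    rcases hc : clo cls B' with _ | c
    · exfalso
      have h4 := fs_le (cap B' (by omega) p e2) hy3
      rw [kap_none e2 hc] at h4
      have h5 : fs (FI.q : FI n) = 2 := rfl
      omega
    · exact ⟨c, rfl⟩
  obtain ⟨c, hc⟩ := hsome
  have hB : B' = h * PP cls + 4 * j ∨ B' = h * PP cls + (4 * j + 1) := by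
    rcases Nat.lt_or_ge B' (h * PP cls) with hlt | hge
    · exfalso
      have hj0 : j = 0 := by omega
      obtain ⟨d, hd⟩ : ∃ d, B' = (h - 1) * PP cls + d := ⟨B' - (h - 1) * PP cls, by
        have : (h - 1) * PP cls + PP cls = h * PP cls := by
          rw [← Nat.succ_mul, Nat.succ_eq_add_one, Nat.sub_add_cancel h1]
        omega⟩
      have hd2 : (h - 1) * PP cls + PP cls = h * PP cls := by
        rw [← Nat.succ_mul, Nat.succ_eq_add_one, Nat.sub_add_cancel h1]
      rw [hd] at hc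
      rw [clo_iff, (div_mod_block (h - 1) d (by omega)).2] at hc
      rcases hc with ⟨-, ⟨j', hj', h6⟩ | h6⟩ | ⟨-, j', hj', h6⟩ <;> omega
    · obtain ⟨d, hd⟩ : ∃ d, B' = h * PP cls + d := ⟨B' - h * PP cls, by omega⟩
      rw [hd] at hc
      rw [clo_iff, (div_mod_block h d (by omega)).2] at hc
      rcases hc with ⟨-, ⟨j', hj', h6⟩ | h6⟩ | ⟨-, j', hj', h6⟩ <;> omega
  rcases hB with hB | hB
  · obtain ⟨e, he⟩ := cell_start hn cap win hM h1 (by omega)
    have he' := chain1 hn cap win hM h1 h2 he j hj.le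
    rw [hB] at hy3
    have h4 := probe_cell cap (h := h) (b := 4 * j) (r := false) (by omega)
      (role_eq_false.2 (Or.inl ⟨j, hj.le, rfl⟩)) (clo_role1 hj.le) (by omega) e2 hy3 he'
    rw [Nat.mul_div_cancel_left _ (by norm_num : 0 < 4)] at h4
    exact ⟨false, p, e2, h4.1, (small_iff he e2).2 h4.2⟩
  · obtain ⟨e, he⟩ := cell_start hn cap win hM (h := h + 1) (by omega) h2
    have he' := chain2 hn cap win hM h1 h2 he j hj.le
    rw [hB] at hy3
    have h4 := probe_cell cap (h := h) (b := 4 * j + 1) (r := true) (by omega)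
      (role_eq_true.2 ⟨j, hj.le, rfl⟩) (clo_role2 hj.le) (by omega) e2 hy3 he'
    rw [show (4 * j + 1) / 4 = j by omega] at h4
    exact ⟨true, p, e2, h4.1, (small_iff he e2).2 h4.2⟩

variable (ht : ∀ i < n, [(false, i, true), (false, i, false)] ∈ cls)

open Classical in
/-- The value of bit `i` in half-period `h`. -/
noncomputable def vv (cls : Cl) (C : ℕ → Finset (FI n)) (h i : ℕ) : Bool :=
  decide (Small cls C h (2 * i + 1))

include hn cap win hM ht in
theorem small_val {h p : ℕ} (h1 : 1 ≤ h) (h2 : (h + 1) * PP cls + 7 ≤ NB) (hp : p < 2 * n)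
    (hs : Small cls C h p) : vv cls C h (p / 2) = decide (p % 2 = 1) := by
  classical
  have hP : PP cls = 4 * cls.length + 5 := rfl
  have h2' := h2
  rw [Nat.succ_mul] at h2'
  obtain ⟨e, he⟩ := cell_start hn cap win hM h1 (by omega)
  have hex : ∀ i < n, ∃ k : Fin n, (e (false, k) : ℕ) / 2 = i := by
    intro i hi
    obtain ⟨j, hj, hj2⟩ := List.mem_iff_getElem.1 (ht i hi)
    obtain ⟨r, q, hq, hl, hsq⟩ := probe hn cap win hM h1 h2 hj
    rw [List.getD_eq_getElem _ _ hj, hj2] at hl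
    simp only [List.mem_cons, Prod.mk.injEq, List.not_mem_nil, or_false] at hl
    have hr : r = false := by rcases hl with hl | hl <;> exact hl.1
    have hqi : q / 2 = i := by rcases hl with hl | hl <;> exact hl.2.1
    rw [hr] at hsq
    obtain ⟨k, hk⟩ := (small_iff he hq).1 hsq
    exact ⟨k, by rw [hk, hqi]⟩
  let f : Fin n → Fin n := fun k => ⟨(e (false, k) : ℕ) / 2, by
    have := (e (false, k)).2
    omega⟩
  have hsurj : Function.Surjective f := by
    intro i
    obtain ⟨k, hk⟩ := hex i i.2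
    exact ⟨k, Fin.ext hk⟩
  have hinj : Function.Injective f := Finite.injective_iff_surjective.2 hsurj
  unfold vv
  rw [decide_eq_decide]
  constructor
  · intro h3
    by_contra h4
    have h5 : p % 2 = 0 := by omega
    obtain ⟨k, hk⟩ := (small_iff he hp).1 hs
    obtain ⟨k', hk'⟩ := (small_iff he (p := 2 * (p / 2) + 1) (by omega)).1 h3
    have h6 : f k = f k' := by
      apply Fin.ext
      change (e (false, k) : ℕ) / 2 = (e (false, k') : ℕ) / 2
      rw [hk, hk']
      omega
    have h7 := hinj h6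
    rw [h7, hk'] at hk
    omega
  · intro h3
    have h4 : 2 * (p / 2) + 1 = p := by omega
    rw [h4]
    exact hs

end Pool.Agent.Work.MP_a392d0_lc.FS

namespace Pool.Agent.Work.MP_a392d0_lc

open FS in
theorem stmt_FS : Stmt_FS := by
  intro n cls hn _ ht r Z C hZ hC
  have hM : 1 ≤ cls.length := List.length_pos_of_mem (ht 0 hn)
  have hP : PP cls = 4 * cls.length + 5 := rfl
  set NB := (r + 3) * PP cls with hNB
  have hZ' : NB * (2 * n) ≤ Z := by
    rw [hNB, Nat.mul_assoc]
    exact hZ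
  have cap : ∀ B < NB, ∀ p < 2 * n,
      ∑ i ∈ C (B * (2 * n) + p), fs i ≤ kap n cls (B * (2 * n) + p) := by
    intro B hB p hp
    apply hC.1
    have h1 : (B + 1) * (2 * n) ≤ NB * (2 * n) := Nat.mul_le_mul_right _ hB
    rw [Nat.add_mul] at h1
    omega
  have win : ∀ (i : FI n) (x : ℕ), x + fw i ≤ NB * (2 * n) → ∃ y, x ≤ y ∧ y < x + fw i ∧ i ∈ C y :=
    fun i x hx => hC.2 i x (hx.trans hZ')
  refine ⟨fun h => vv cls C (h + 1), ?_⟩
  intro h hh c hc
  obtain ⟨j, hj, hj2⟩ := List.mem_iff_getElem.1 hc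
  have c1 : (h + 2 + 1) * PP cls = h * PP cls + 3 * PP cls := by ring
  have c0 : (h + 1 + 1) * PP cls = h * PP cls + 2 * PP cls := by ring
  have c3 : (h + 4) * PP cls = h * PP cls + 4 * PP cls := by ring
  have c4 : (h + 4) * PP cls ≤ NB := Nat.mul_le_mul_right _ (by omega)
  have b1 : (h + 2 + 1) * PP cls + 7 ≤ NB := by omega
  have b0 : (h + 1 + 1) * PP cls + 7 ≤ NB := by omega
  obtain ⟨s, p, hp, hl, hs⟩ := probe hn cap win hM (h := h + 1) (by omega) b0 hj
  rw [List.getD_eq_getElem _ _ hj, hj2] at hl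
  refine ⟨_, hl, ?_⟩
  unfold LitOK
  cases s
  · exact small_val hn cap win hM ht (by omega) b0 hp hs
  · exact small_val hn cap win hM ht (h := h + 1 + 1) (by omega) b1 hp hs

end Pool.Agent.Work.MP_a392d0_lc
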