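import Pool.Agent.Work.MP_a392d0_lc.Interface

/-!
# Block FS, part 1: blocks and cells
-/

namespace Pool.Agent.Work.MP_a392d0_lc.FS

/-- The number of blocks of a half-period. -/
def PP (cls : Cl) : ℕ := 4 * cls.length + 5

/-- The class of the block `B`. -/
def clo (cls : Cl) (B : ℕ) : Option Bool :=
  (role cls.length (B % PP cls)).map fun r => xor r (decide (B / PP cls % 2 = 1))

theorem kap_cell (n : ℕ) (cls : Cl) (B p : ℕ) (hp : p < 2 * n) :
    kap n cls (B * (2 * n) + p) = match role cls.length (B % PP cls) with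
      | none => 0
      | some r => sb (xor r (decide (B / PP cls % 2 = 1))) + 1 +
        (if B % PP cls < 4 * cls.length ∧
          (r, p / 2, decide (p % 2 = 1)) ∈ cls.getD (B % PP cls / 4) [] then 1 else 0) +
        (if B % PP cls = 4 * cls.length + 1 ∧ p = 0 then 2 else 0) := by
  have hG : 0 < 2 * n := by omega
  have h1 : (B * (2 * n) + p) / (2 * n) = B := by
    rw [Nat.mul_comm B, Nat.mul_add_div hG, Nat.div_eq_of_lt hp, Nat.add_zero]
  have h2 : (B * (2 * n) + p) % (2 * n) = p := by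
    rw [Nat.mul_comm B, Nat.mul_add_mod, Nat.mod_eq_of_lt hp]
  have hhp : Pool.Agent.Work.MP_a392d0_lc.hp n cls = (2 * n) * PP cls := by
    unfold Pool.Agent.Work.MP_a392d0_lc.hp PP
    exact Nat.mul_comm _ _
  have h3 : (B * (2 * n) + p) / Pool.Agent.Work.MP_a392d0_lc.hp n cls = B / PP cls := by
    rw [hhp, ← Nat.div_div_eq_div_mul, h1]
  have h4 : (B * (2 * n) + p) % Pool.Agent.Work.MP_a392d0_lc.hp n cls =
      p + 2 * n * (B % PP cls) := by
    rw [hhp, Nat.mod_mul, h1, h2]
  have h5 : (p + 2 * n * (B % PP cls)) / (2 * n) = B % PP cls := by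
    rw [Nat.add_mul_div_left _ _ hG, Nat.div_eq_of_lt hp, Nat.zero_add]
  have h6 : (p + 2 * n * (B % PP cls)) % (2 * n) = p := by
    rw [Nat.add_mul_mod_self_left, Nat.mod_eq_of_lt hp]
  unfold kap
  rw [h3, h4, h5, h6]
  cases role cls.length (B % PP cls) <;> rfl

theorem kap_none {n : ℕ} {cls : Cl} {B p : ℕ} (hp : p < 2 * n) (h : clo cls B = none) :
    kap n cls (B * (2 * n) + p) = 0 := by
  rw [kap_cell n cls B p hp]
  unfold clo at h
  rw [Option.map_eq_none_iff] at h
  rw [h]

theorem kap_some {n : ℕ} {cls : Cl} {B p : ℕ} {c : Bool} (hp : p < 2 * n)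
    (h : clo cls B = some c) : kap n cls (B * (2 * n) + p) ≤ sb c + 3 := by
  rw [kap_cell n cls B p hp]
  unfold clo at h
  rw [Option.map_eq_some_iff] at h
  obtain ⟨r, hr, rfl⟩ := h
  rw [hr]
  simp only
  split_ifs <;> omega

theorem role_eq_true {M b : ℕ} : role M b = some true ↔ (∃ j ≤ M, b = 4 * j + 1) := by
  unfold role
  constructor
  · intro h
    split_ifs at h with h1 h2 h3 h4 h5 <;> simp at h
    · exact ⟨b / 4, by omega, by omega⟩
    · exact ⟨M, le_rfl, by omega⟩
  · rintro ⟨j, hj, rfl⟩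
    have h0 : ¬ ((4 * j + 1) % 4 = 0) := by omega
    have h1 : (4 * j + 1) % 4 = 1 := by omega
    rcases Nat.lt_or_ge j M with h | h
    · rw [if_pos (by omega), if_neg h0, if_pos h1]
    · have : j = M := le_antisymm hj h
      subst this
      rw [if_neg (by omega), if_neg (by omega), if_pos rfl]

theorem role_eq_false {M b : ℕ} : role M b = some false ↔
    (∃ j ≤ M, b = 4 * j) ∨ b = 4 * M + 2 := by
  unfold role
  constructor
  · intro h
    split_ifs at h with h1 h2 h3 h4 h5 <;> simp at h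
    · exact Or.inl ⟨b / 4, by omega, by omega⟩
    · rcases h4 with h4 | h4
      · exact Or.inl ⟨M, le_rfl, h4⟩
      · exact Or.inr h4
  · rintro (⟨j, hj, rfl⟩ | rfl)
    · have h0 : (4 * j) % 4 = 0 := by omega
      rcases Nat.lt_or_ge j M with h | h
      · rw [if_pos (by omega), if_pos h0]
      · have : j = M := le_antisymm hj h
        subst this
        rw [if_neg (by omega), if_pos (Or.inl rfl)]
    · rw [if_neg (by omega), if_pos (Or.inr rfl)]

/-- The role decides the class. -/
theorem clo_eq_iff {cls : Cl} {B : ℕ} {c : Bool} : clo cls B = some c ↔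
    ∃ r, role cls.length (B % PP cls) = some r ∧ xor r (decide (B / PP cls % 2 = 1)) = c := by
  unfold clo
  rw [Option.map_eq_some_iff]

/-- Class and position of the blocks: the explicit description. -/
theorem clo_iff {cls : Cl} {B : ℕ} {c : Bool} : clo cls B = some c ↔
    (decide (B / PP cls % 2 = 1) = c ∧
      ((∃ j ≤ cls.length, B % PP cls = 4 * j) ∨ B % PP cls = 4 * cls.length + 2)) ∨
    (decide (B / PP cls % 2 = 1) = !c ∧ ∃ j ≤ cls.length, B % PP cls = 4 * j + 1) := by
  rw [clo_eq_iff]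
  constructor
  · rintro ⟨r, hr, hc⟩
    cases r
    · left
      rw [role_eq_false] at hr
      refine ⟨?_, hr⟩
      simpa using hc
    · right
      rw [role_eq_true] at hr
      refine ⟨?_, hr⟩
      rw [← hc]
      simp
  · rintro (⟨h1, h2⟩ | ⟨h1, h2⟩)
    · exact ⟨false, role_eq_false.2 h2, by rw [h1]; simp⟩
    · exact ⟨true, role_eq_true.2 h2, by rw [h1]; simp⟩

/-- Division data of nearby blocks. -/
theorem near_cases {P B B' : ℕ} (hP : 5 ≤ P) (h1 : B ≤ B') (h2 : B' < B + 5) :
    (B' / P = B / P ∧ B' % P = B % P + (B' - B)) ∨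
    (B' / P = B / P + 1 ∧ B' % P + P = B % P + (B' - B)) := by
  have hP0 : 0 < P := by omega
  have e1 := Nat.div_add_mod B P
  have e2 := Nat.div_add_mod B' P
  have l1 := Nat.mod_lt B hP0
  have l2 := Nat.mod_lt B' hP0
  rcases Nat.lt_or_ge (B % P + (B' - B)) P with h | h
  · left
    have h3 : B' / P = B / P := by
      apply Nat.div_eq_of_lt_le
      · have : P * (B / P) ≤ B' := by omega
        rw [Nat.mul_comm]; exact this
      · have : B' < P * (B / P) + P := by omega
        rw [Nat.mul_comm, Nat.mul_succ]; exact this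
    refine ⟨h3, ?_⟩
    rw [h3] at e2
    omega
  · right
    have h3 : B' / P = B / P + 1 := by
      apply Nat.div_eq_of_lt_le
      · have : P * (B / P) + P ≤ B' := by omega
        rw [Nat.mul_comm, Nat.mul_succ]; exact this
      · have : B' < P * (B / P) + P + P := by omega
        rw [Nat.mul_comm, Nat.mul_succ, Nat.mul_succ]; exact this
    refine ⟨h3, ?_⟩
    rw [h3, Nat.mul_succ] at e2
    omega

theorem parity_flip (a : ℕ) (c : Bool) : (decide ((a + 1) % 2 = 1) = c) ↔
    (decide (a % 2 = 1) = !c) := by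
  rcases Nat.mod_two_eq_zero_or_one a with h | h
  · have h2 : (a + 1) % 2 = 1 := by omega
    rw [h, h2]
    cases c <;> simp
  · have h2 : (a + 1) % 2 = 0 := by omega
    rw [h, h2]
    cases c <;> simp

/-- After a block of class `c` whose number is not `4 M`, the next three are not of class `c`. -/
theorem sep_after {cls : Cl} {B B' : ℕ} {c : Bool} (h : clo cls B = some c)
    (hB : B % PP cls ≠ 4 * cls.length) (h1 : B < B') (h2 : B' < B + 4) :
    clo cls B' ≠ some c := by
  intro h'
  rw [clo_iff] at h h'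
  have hP : 5 ≤ PP cls := by unfold PP; omega
  have hPP : PP cls = 4 * cls.length + 5 := rfl
  have hlt := Nat.mod_lt B (show 0 < PP cls by omega)
  rcases near_cases hP h1.le (by omega : B' < B + 5) with ⟨e1, e2⟩ | ⟨e1, e2⟩
  · rw [e1] at h'
    rcases h with ⟨p1, q1⟩ | ⟨p1, j1, hj1, q1⟩
    · rcases h' with ⟨p2, q2⟩ | ⟨p2, j2, hj2, q2⟩
      · rcases q1 with ⟨j1, hj1, q1⟩ | q1 <;> rcases q2 with ⟨j2, hj2, q2⟩ | q2 <;> omega
      · rw [p1] at p2
        cases c <;> simp at p2
    · rcases h' with ⟨p2, q2⟩ | ⟨p2, j2, hj2, q2⟩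
      · rw [p1] at p2
        cases c <;> simp at p2
      · omega
  · rw [e1] at h'
    rw [parity_flip, parity_flip, Bool.not_not] at h'
    rcases h with ⟨p1, q1⟩ | ⟨p1, j1, hj1, q1⟩
    · rcases h' with ⟨p2, q2⟩ | ⟨p2, j2, hj2, q2⟩
      · rw [p1] at p2
        cases c <;> simp at p2
      · rcases q1 with ⟨j1, hj1, q1⟩ | q1 <;> omega
    · rcases h' with ⟨p2, q2⟩ | ⟨p2, j2, hj2, q2⟩
      · rcases q2 with ⟨j2, hj2, q2⟩ | q2 <;> omega
      · rw [p1] at p2
        cases c <;> simp at p2

/-- Before a block whose number is `4 M` there are three blocks which are not of its class. -/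
theorem sep_before {cls : Cl} {B B' : ℕ} {c : Bool} (hM : 1 ≤ cls.length)
    (h : clo cls B = some c) (hB : B % PP cls = 4 * cls.length) (h1 : B' < B) (h2 : B ≤ B' + 3) :
    clo cls B' ≠ some c := by
  intro h'
  rw [clo_iff] at h h'
  have hP : 5 ≤ PP cls := by unfold PP; omega
  have hPP : PP cls = 4 * cls.length + 5 := rfl
  have hlt := Nat.mod_lt B' (show 0 < PP cls by omega)
  rcases near_cases hP h1.le (by omega : B < B' + 5) with ⟨e1, e2⟩ | ⟨e1, e2⟩
  · rw [e1] at h
    rcases h with ⟨p1, q1⟩ | ⟨p1, j1, hj1, q1⟩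
    · rcases h' with ⟨p2, q2⟩ | ⟨p2, j2, hj2, q2⟩
      · rcases q2 with ⟨j2, hj2, q2⟩ | q2 <;> omega
      · rw [p1] at p2
        cases c <;> simp at p2
    · omega
  · omega

end Pool.Agent.Work.MP_a392d0_lc.FS
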