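import Pool.Agent.Work.MP_a392d0_lc_h31.FS1

/-!
# Block FS, part 2: the contents of the cells
-/

namespace Pool.Agent.Work.MP_a392d0_lc.FS

variable {n : ℕ} {cls : Cl} {NB : ℕ} {C : ℕ → Finset (FI n)}

theorem fs_le {x m : ℕ} (h : ∑ i ∈ C x, fs i ≤ m) {i : FI n} (hi : i ∈ C x) : fs i ≤ m :=
  (Finset.single_le_sum (f := fs) (fun _ _ => Nat.zero_le _) hi).trans h

theorem fs_add_le {x m : ℕ} (h : ∑ i ∈ C x, fs i ≤ m) {i j : FI n} (hi : i ∈ C x) (hj : j ∈ C x)
    (hij : i ≠ j) : fs i + fs j ≤ m := by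
  classical
  have h1 : ∑ k ∈ ({i, j} : Finset (FI n)), fs k ≤ ∑ k ∈ C x, fs k := by
    apply Finset.sum_le_sum_of_subset
    intro k hk
    rw [Finset.mem_insert, Finset.mem_singleton] at hk
    rcases hk with rfl | rfl
    · exact hi
    · exact hj
  rw [Finset.sum_pair hij] at h1
  exact h1.trans h

theorem fs_trk (c big : Bool) (i : Fin n) : fs (FI.trk c big i) = sb c + bif big then 1 else 0 :=
  rfl

theorem sb_ge (c : Bool) : 10 ≤ sb c := by cases c <;> decide

theorem sb_le (c : Bool) : sb c ≤ 20 := by cases c <;> decide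

/-- Exactly the item `e⁻¹ p` of class `c` is in cell `p` of the block `B`. -/
def Cell (C : ℕ → Finset (FI n)) (c : Bool) (B : ℕ) (e : Bool × Fin n ≃ Fin (2 * n)) : Prop :=
  ∀ (big : Bool) (i : Fin n) (p : Fin (2 * n)),
    FI.trk c big i ∈ C (B * (2 * n) + p) ↔ e (big, i) = p

theorem Cell.unique {c : Bool} {B : ℕ} {e e' : Bool × Fin n ≃ Fin (2 * n)} (h : Cell C c B e)
    (h' : Cell C c B e') : e = e' := by
  ext x
  obtain ⟨big, i⟩ := x
  have h1 := (h big i (e (big, i))).2 rfl
  have h2 := (h' big i _).1 h1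
  rw [h2]

/-- The items of class `c` are in blocks of class `c` only. -/
def Own (cls : Cl) (C : ℕ → Finset (FI n)) (c : Bool) (lo hi : ℕ) : Prop :=
  ∀ B, lo ≤ B → B < hi → ∀ p < 2 * n, ∀ big i,
    FI.trk c big i ∈ C (B * (2 * n) + p) → clo cls B = some c

variable (hn : 1 ≤ n)
  (cap : ∀ B < NB, ∀ p < 2 * n,
    ∑ i ∈ C (B * (2 * n) + p), fs i ≤ kap n cls (B * (2 * n) + p))
  (win : ∀ (i : FI n) (x : ℕ), x + fw i ≤ NB * (2 * n) → ∃ y, x ≤ y ∧ y < x + fw i ∧ i ∈ C y)

include cap in
theorem at_most_one {c : Bool} {B p : ℕ} (hB : B < NB) (hp : p < 2 * n)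
    (hc : clo cls B = some c) {big big' : Bool} {i i' : Fin n}
    (h : FI.trk c big i ∈ C (B * (2 * n) + p)) (h' : FI.trk c big' i' ∈ C (B * (2 * n) + p)) :
    (big, i) = (big', i') := by
  by_contra hne
  have h1 : FI.trk c big i ≠ FI.trk c big' i' := by
    intro h2
    injection h2 with _ h3 h4
    exact hne (by rw [h3, h4])
  have h2 := fs_add_le (cap B hB p hp) h h' h1
  have h3 := kap_some (n := n) hp hc
  rw [fs_trk, fs_trk] at h2
  have h4 := sb_ge c
  omega

theorem split_lt {y : ℕ} (hn : 1 ≤ n) : y / (2 * n) * (2 * n) + y % (2 * n) = y ∧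
    y % (2 * n) < 2 * n := by
  refine ⟨?_, Nat.mod_lt _ (by omega)⟩
  rw [Nat.mul_comm]
  exact Nat.div_add_mod _ _

include hn cap win in
theorem exists_cell {c : Bool} {lo hi : ℕ} (hhi : hi ≤ NB) (own : Own cls C c lo hi) {W B : ℕ}
    (hW : lo ≤ W) (hW' : W + 4 ≤ hi) (h1 : W ≤ B) (h2 : B < W + 4) (hc : clo cls B = some c)
    (hsep : ∀ B', W ≤ B' → B' < W + 4 → clo cls B' = some c → B' = B) :
    ∃ e, Cell C c B e := by
  classical
  have key : ∀ x : Bool × Fin n, ∃ p : Fin (2 * n), FI.trk c x.1 x.2 ∈ C (B * (2 * n) + p) := by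
    rintro ⟨big, i⟩
    obtain ⟨y, hy1, hy2, hy3⟩ := win (FI.trk c big i) (W * (2 * n)) (by
      change W * (2 * n) + 4 * (2 * n) ≤ _
      rw [← Nat.add_mul]
      exact Nat.mul_le_mul_right _ (hW'.trans hhi))
    change y < W * (2 * n) + 4 * (2 * n) at hy2
    rw [← Nat.add_mul] at hy2
    obtain ⟨e1, e2⟩ := split_lt (y := y) hn
    have hG : 0 < 2 * n := by omega
    have b1 : W ≤ y / (2 * n) := (Nat.le_div_iff_mul_le hG).2 hy1
    have b2 : y / (2 * n) < W + 4 := (Nat.div_lt_iff_lt_mul hG).2 hy2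
    rw [← e1] at hy3
    have b3 := own _ (hW.trans b1) (b2.trans_le hW') _ e2 big i hy3
    have b4 := hsep _ b1 b2 b3
    rw [b4] at hy3
    exact ⟨⟨y % (2 * n), e2⟩, hy3⟩
  choose f hf using key
  have hinj : Function.Injective f := by
    rintro ⟨big, i⟩ ⟨big', i'⟩ h
    have h3 := hf (big, i)
    have h4 := hf (big', i')
    rw [← h] at h4
    exact at_most_one cap (by omega) (f (big, i)).2 hc h3 h4
  have hbij : Function.Bijective f := by
    rw [Fintype.bijective_iff_injective_and_card]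
    refine ⟨hinj, ?_⟩
    simp
  refine ⟨Equiv.ofBijective f hbij, ?_⟩
  intro big i p
  constructor
  · intro h
    obtain ⟨⟨big', i'⟩, hx⟩ := hbij.2 p
    have h3 := hf (big', i')
    rw [hx] at h3
    have h4 := at_most_one cap (by omega) p.2 hc h h3
    rw [h4]
    exact hx
  · intro h
    have h3 := hf (big, i)
    have h4 : f (big, i) = p := h
    rw [h4] at h3
    exact h3

include hn cap win in
/-- The window containing a block of class `c` and no other one of this class. -/
theorem exists_cell' (hM : 1 ≤ cls.length) {c : Bool} {lo hi : ℕ} (hhi : hi ≤ NB)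
    (own : Own cls C c lo hi) {B : ℕ} (h1 : lo + 3 ≤ B) (h2 : B + 4 ≤ hi)
    (hc : clo cls B = some c) : ∃ e, Cell C c B e := by
  by_cases hB : B % PP cls = 4 * cls.length
  · refine exists_cell hn cap win hhi own (W := B - 3) (by omega) (by omega) (by omega) (by omega)
      hc ?_
    intro B' h3 h4 h5
    by_contra hne
    exact sep_before hM hc hB (by omega) (by omega) h5
  · refine exists_cell hn cap win hhi own (W := B) (by omega) (by omega) (by omega) (by omega)
      hc ?_
    intro B' h3 h4 h5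
    by_contra hne
    exact sep_after hc hB (by omega) (by omega) h5

include cap in
theorem own_false : Own cls C false 0 NB := by
  intro B _ hB p hp big i h
  have h1 := fs_le (cap B hB p hp) h
  rw [fs_trk] at h1
  have h2 : sb false = 20 := rfl
  rcases hc : clo cls B with _ | c
  · rw [kap_none hp hc] at h1
    omega
  · cases c
    · rfl
    · have h3 := kap_some (n := n) hp hc
      have h4 : sb true = 10 := rfl
      omega

include hn cap win in
theorem own_true (hM : 1 ≤ cls.length) : Own cls C true 3 (NB - 3) := by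
  intro B hB1 hB2 p hp big i h
  have h1 := fs_le (cap B (by omega) p hp) h
  rw [fs_trk] at h1
  have h2 : sb true = 10 := rfl
  rcases hc : clo cls B with _ | c
  · rw [kap_none hp hc] at h1
    omega
  · cases c
    · exfalso
      obtain ⟨e, he⟩ := exists_cell' hn cap win hM le_rfl (own_false cap) (B := B) (by omega)
        (by omega) hc
      have h3 := (he (e.symm ⟨p, hp⟩).1 (e.symm ⟨p, hp⟩).2 ⟨p, hp⟩).2 (by
        rw [Prod.mk.eta, Equiv.apply_symm_apply])
      have h4 := fs_add_le (cap B (by omega) p hp) h h3 (by intro h5; injection h5; contradiction)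
      have h5 := kap_some (n := n) hp hc
      rw [fs_trk, fs_trk] at h4
      have h6 : sb false = 20 := rfl
      omega
    · rfl

include hn cap win in
theorem own_all (hM : 1 ≤ cls.length) (c : Bool) : Own cls C c 3 (NB - 3) := by
  cases c
  · intro B _ h2
    exact own_false cap B (Nat.zero_le _) (by omega)
  · exact own_true hn cap win hM

include hn cap win in
theorem cell_all (hM : 1 ≤ cls.length) {c : Bool} {B : ℕ} (h1 : 6 ≤ B) (h2 : B + 7 ≤ NB)
    (hc : clo cls B = some c) : ∃ e, Cell C c B e :=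
  exists_cell' hn cap win hM (Nat.sub_le _ _) (own_all hn cap win hM c) (by omega) (by omega) hc

theorem eq_of_le_sum {α : Type*} [Fintype α] {N : ℕ} (e e' : α ≃ Fin N)
    (h : ∀ x, (e' x : ℕ) ≤ e x) : e' = e := by
  have h1 : ∑ x, (e' x : ℕ) = ∑ x, (e x : ℕ) := by
    rw [Equiv.sum_comp e' (fun p : Fin N => (p : ℕ)), Equiv.sum_comp e (fun p : Fin N => (p : ℕ))]
  have h2 := (Finset.sum_eq_sum_iff_of_le (fun x _ => h x)).1 h1
  ext x
  exact h2 x (Finset.mem_univ x)

include hn cap win in
/-- The contents of the cells are the same in blocks of the same class at distance four. -/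
theorem cell_next (hM : 1 ≤ cls.length) {c : Bool} {B : ℕ} (h1 : 6 ≤ B) (h2 : B + 11 ≤ NB)
    (hc : clo cls B = some c) (hne : B % PP cls ≠ 4 * cls.length)
    (hc4 : clo cls (B + 4) = some c) {e : Bool × Fin n ≃ Fin (2 * n)} (he : Cell C c B e) :
    Cell C c (B + 4) e := by
  obtain ⟨e', he'⟩ := cell_all hn cap win hM (by omega : 6 ≤ B + 4) (by omega) hc4
  have hle : ∀ x, (e' x : ℕ) ≤ e x := by
    rintro ⟨big, i⟩
    obtain ⟨y, hy1, hy2, hy3⟩ := win (FI.trk c big i) (B * (2 * n) + (e (big, i) : ℕ) + 1) (by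
      change B * (2 * n) + (e (big, i) : ℕ) + 1 + 4 * (2 * n) ≤ _
      have h3 := (e (big, i)).2
      have h4 : (B + 5) * (2 * n) ≤ NB * (2 * n) := Nat.mul_le_mul_right _ (by omega)
      rw [Nat.add_mul] at h4
      omega)
    change y < B * (2 * n) + (e (big, i) : ℕ) + 1 + 4 * (2 * n) at hy2
    obtain ⟨e1, e2⟩ := split_lt (y := y) hn
    have hG : 0 < 2 * n := by omega
    have h3 := (e (big, i)).2
    have b1 : B ≤ y / (2 * n) := (Nat.le_div_iff_mul_le hG).2 (by omega)
    have b2 : y / (2 * n) < B + 5 := (Nat.div_lt_iff_lt_mul hG).2 (by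
      rw [Nat.add_mul]; omega)
    rw [← e1] at hy3
    have b3 := own_all hn cap win hM c _ (by omega) (by omega) _ e2 big i hy3
    have b4 : y / (2 * n) = B ∨ y / (2 * n) = B + 4 := by
      by_contra hcon
      exact sep_after hc hne (B' := y / (2 * n)) (by omega) (by omega) b3
    rcases b4 with b4 | b4
    · exfalso
      rw [b4] at hy3 e1
      have h5 := (he big i ⟨y % (2 * n), e2⟩).1 hy3
      rw [h5] at hy1
      simp only at hy1
      omega
    · rw [b4] at hy3 e1
      have h5 := (he' big i ⟨y % (2 * n), e2⟩).1 hy3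
      rw [h5]
      simp only
      rw [Nat.add_mul] at e1
      omega
  rw [← eq_of_le_sum e e' hle]
  exact he'

end Pool.Agent.Work.MP_a392d0_lc.FS
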