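import Pool.Agent.Work.MP_a392d0_lc.Interface

/-!
# Block OC: adding the order items to a filling
-/

namespace Pool.Agent.Work.MP_a392d0_lc

theorem mod_step (P x d : ℕ) (hP : 0 < P) (hd : d ≤ P) :
    (x + d) % P = if x % P + d < P then x % P + d else x % P + d - P := by
  have h1 := Nat.mod_lt x hP
  rw [Nat.add_mod]
  split_ifs with h
  · rcases Nat.lt_or_ge d P with h2 | h2
    · rw [Nat.mod_eq_of_lt h2, Nat.mod_eq_of_lt h]
    · omega
  · rcases Nat.lt_or_ge d P with h2 | h2
    · rw [Nat.mod_eq_of_lt h2]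
      rw [Nat.mod_eq_sub_mod (by omega)]
      exact Nat.mod_eq_of_lt (by omega)
    · have h3 : d = P := le_antisymm hd h2
      rw [h3, Nat.mod_self, Nat.add_zero, Nat.mod_mod]
      omega

theorem order_window {m k x : ℕ} (hm : 2 ≤ m) (hk : k < 2 * m) :
    ∃ y, x ≤ y ∧ y < x + (if k < m then m else m + 1) ∧ Dd m k (y % (2 * m)) := by
  have hP : 0 < 2 * m := by omega
  have h1 := Nat.mod_lt x hP
  have key : ∀ d ≤ 2 * m, (x + d) % (2 * m) =
      if x % (2 * m) + d < 2 * m then x % (2 * m) + d else x % (2 * m) + d - 2 * m :=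
    fun d hd => mod_step _ _ _ hP hd
  set a := x % (2 * m) with ha
  by_cases hkm : k < m
  · have hD : ∀ t, Dd m k t ↔ t = k ∨ t = k + m := fun t => by unfold Dd; rw [if_pos hkm]
    rw [if_pos hkm]
    -- next position of `k` modulo `m`
    by_cases c1 : a ≤ k
    · exact ⟨x + (k - a), by omega, by omega, by
        rw [hD, key _ (by omega), if_pos (by omega)]; omega⟩
    · by_cases c2 : a ≤ k + m
      · exact ⟨x + (k + m - a), by omega, by omega, by
          rw [hD, key _ (by omega), if_pos (by omega)]; omega⟩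
      · exact ⟨x + (k + 2 * m - a), by omega, by omega, by
          rw [hD, key _ (by omega), if_neg (by omega)]; omega⟩
  · have hD : ∀ t, Dd m k t ↔ t = k - m ∨ t = (k + 1) % (2 * m) := fun t => by
      unfold Dd; rw [if_neg hkm]
    rw [if_neg hkm]
    by_cases hk1 : k + 1 < 2 * m
    · have e : (k + 1) % (2 * m) = k + 1 := Nat.mod_eq_of_lt hk1
      rw [e] at hD
      by_cases c1 : a ≤ k - m
      · exact ⟨x + (k - m - a), by omega, by omega, by
          rw [hD, key _ (by omega), if_pos (by omega)]; omega⟩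
      · by_cases c2 : a ≤ k + 1
        · exact ⟨x + (k + 1 - a), by omega, by omega, by
            rw [hD, key _ (by omega), if_pos (by omega)]; omega⟩
        · exact ⟨x + (k - m + 2 * m - a), by omega, by omega, by
            rw [hD, key _ (by omega), if_neg (by omega)]; omega⟩
    · have e0 : k + 1 = 2 * m := by omega
      have e : (k + 1) % (2 * m) = 0 := by rw [e0, Nat.mod_self]
      rw [e] at hD
      by_cases c1 : a ≤ k - m
      · by_cases c0 : a = 0
        · exact ⟨x, le_rfl, by omega, by rw [hD]; omega⟩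
        · exact ⟨x + (k - m - a), by omega, by omega, by
            rw [hD, key _ (by omega), if_pos (by omega)]; omega⟩
      · exact ⟨x + (2 * m - a), by omega, by omega, by
          rw [hD, key _ (by omega), if_neg (by omega)]; omega⟩

theorem stmt_OC : Stmt_OC := by
  classical
  intro m β F _ _ κ s w C hm hcap hwin
  refine ⟨fun x => (Finset.univ.filter fun k : Fin (2 * m) => Dd m k (x % (2 * m))).disjSum (C x),
    ?_, ?_⟩
  · intro x
    rw [Finset.sum_disjSum]
    simp only [se]
    unfold Kf
    have h1 : ∑ k ∈ Finset.univ.filter (fun k : Fin (2 * m) => Dd m k (x % (2 * m))),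
        β ^ ((k : ℕ) + 1) =
        ∑ k ∈ (Finset.range (2 * m)).filter (fun k => Dd m k (x % (2 * m))), β ^ (k + 1) := by
      rw [Finset.sum_filter, Finset.sum_filter,
        Finset.sum_range (fun k => if Dd m k (x % (2 * m)) then β ^ (k + 1) else 0)]
    rw [h1]
    have h2 := hcap x
    omega
  · rintro (k | i) x
    · obtain ⟨y, h1, h2, h3⟩ := order_window (x := x) hm k.2
      refine ⟨y, h1, h2, ?_⟩
      rw [Finset.inl_mem_disjSum, Finset.mem_filter]
      exact ⟨Finset.mem_univ _, h3⟩
    · obtain ⟨y, h1, h2, h3⟩ := hwin i x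
      refine ⟨y, h1, h2, ?_⟩
      rw [Finset.inr_mem_disjSum]
      exact h3

end Pool.Agent.Work.MP_a392d0_lc
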